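import Mathlib
import Pool.Agent.Helper292.ForceCH

set_option autoImplicit false

open Set Filter Topology

namespace Pool.Agent.Results.MP_23bd8d_gt.UnderDiamond

open Pool.Agent.Helper292.ForceCH (Om countable_Iio exists_bound)

/-!
Under diamond we build a topology on `ω₁ × ℕ`.  The basic neighbourhoods of a point of the level `α`
consist of the point and of points of lower levels.  At each level `α` the set of tuples guessed by
the diamond sequence is put into all the neighbourhoods of all the tuples of different new points,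
and each new point is a limit of points of all the lower levels.  So every set of tuples with
unbounded levels is dense in a tail (`IsTab.star`).  Hence a continuous real function is constant on
a tail, and a discrete set of continuous functions is countable (a counting argument of Velichko
type).  The closure of a countable set of functions lives on countably many points, so it is first
countable.  But the constant function `1` is in the closure of the set of the functions vanishing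
on a tail, and it is not the limit of a sequence of such functions.
-/

/-- the underlying set of the space: level and number in the level -/
abbrev X : Type := Om × ℕ

/-- a system of basic sets on the set `Y` -/
structure Sys (Y : Set X) (V : X → ℕ → Set X) : Prop where
  anti : ∀ y ∈ Y, Antitone (V y)
  self : ∀ y ∈ Y, ∀ m, y ∈ V y m
  sub : ∀ y ∈ Y, ∀ m, V y m ⊆ Y
  opn : ∀ y ∈ Y, ∀ m, ∀ z ∈ V y m, ∃ m', V z m' ⊆ V y m
  cls : ∀ y ∈ Y, ∀ m, ∀ z ∈ Y, z ∉ V y m → ∃ m', Disjoint (V z m') (V y m)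
  t1 : ∀ y ∈ Y, ∀ z ∈ Y, y ≠ z → ∃ m, z ∉ V y m

/-- a task: put some tuple of points of `Sol` in the neighbourhoods of the new points with the
numbers `κ i` -/
structure Task (Y : Set X) (V : X → ℕ → Set X) where
  n : ℕ
  κ : Fin n → ℕ
  inj : Function.Injective κ
  Sol : Set (Fin n → X)
  ok : ∀ E : Finset X, (∀ x ∈ E, x ∈ Y) → ∃ p ∈ Sol, Function.Injective p ∧ (∀ i, p i ∈ Y) ∧
    ∀ i, ∀ x ∈ E, p i ∉ V x 0

lemma step1 {Y : Set X} {V : X → ℕ → Set X} (hS : Sys Y V) (T : Task Y V) (E : Finset X)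
    (hE : ∀ x ∈ E, x ∈ Y) : ∃ p ∈ T.Sol, (∀ i, p i ∈ Y) ∧ ∃ M : ℕ,
      (∀ i, ∀ x ∈ E, Disjoint (V (p i) M) (V x 0)) ∧
      ∀ i i', i ≠ i' → Disjoint (V (p i) M) (V (p i') M) := by
  obtain ⟨p, hp, hinj, hpY, hpE⟩ := T.ok E hE
  refine ⟨p, hp, hpY, ?_⟩
  have h1 : ∀ i, ∀ x ∈ E, ∀ᶠ M in atTop, Disjoint (V (p i) M) (V x 0) := by
    intro i x hx
    obtain ⟨m, hm⟩ := hS.cls x (hE x hx) 0 (p i) (hpY i) (hpE i x hx)
    filter_upwards [eventually_ge_atTop m] with M hM
    exact hm.mono_left (hS.anti _ (hpY i) hM)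
  have h2 : ∀ i i', i ≠ i' → ∀ᶠ M in atTop, Disjoint (V (p i) M) (V (p i') M) := by
    intro i i' hii
    obtain ⟨m, hm⟩ := hS.t1 (p i) (hpY i) (p i') (hpY i') fun h => hii (hinj h)
    obtain ⟨m', hm'⟩ := hS.cls (p i) (hpY i) m (p i') (hpY i') hm
    filter_upwards [eventually_ge_atTop m, eventually_ge_atTop m'] with M hM hM'
    exact (hm'.symm.mono_left (hS.anti _ (hpY i) hM)).mono_right (hS.anti _ (hpY i') hM')
  have h3 : ∀ᶠ M in atTop, ∀ i, ∀ x ∈ E, Disjoint (V (p i) M) (V x 0) := by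
    rw [eventually_all]
    intro i
    rw [Finset.eventually_all]
    exact h1 i
  have h4 : ∀ᶠ M in atTop, ∀ i i', i ≠ i' → Disjoint (V (p i) M) (V (p i') M) := by
    simp only [eventually_all]
    intro i i' hii
    exact h2 i i' hii
  obtain ⟨M, hM1, hM2⟩ := (h3.and h4).exists
  exact ⟨M, hM1, hM2⟩

lemma step {Y : Set X} {V : X → ℕ → Set X} (hY : Y.Countable) (hS : Sys Y V)
    (task : ℕ → Task Y V) : ∃ W : ℕ → ℕ → Set X, (∀ k m, W k m ⊆ Y) ∧ (∀ k, Antitone (W k)) ∧
      (∀ k m, ∀ y ∈ W k m, ∃ m', V y m' ⊆ W k m) ∧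
      (∀ k m, ∀ y ∈ Y, y ∉ W k m → ∃ m', Disjoint (V y m') (W k m)) ∧
      (∀ k, ∀ y ∈ Y, ∃ m, Disjoint (W k m) (V y 0)) ∧
      (∀ k k' m m', k ≠ k' → Disjoint (W k m) (W k' m')) ∧
      ∀ t m, ∃ p ∈ (task t).Sol, ∀ i, p i ∈ W ((task t).κ i) m := by
  classical
  have : Nonempty X := by
    obtain ⟨e, -⟩ := Pool.Agent.Helper292.ForceCH.exists_emb
    exact ⟨(e 0, 0)⟩
  obtain ⟨y, hy⟩ := (Set.countable_iff_exists_subset_range).1 hY
  choose p hp1 hp2 M hM1 hM2 using fun (t : ℕ) (E : {E : Finset X // ∀ x ∈ E, x ∈ Y}) =>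
    step1 hS (task (Nat.unpair t).1) E.1 E.2
  let nxt : ℕ → {E : Finset X // ∀ x ∈ E, x ∈ Y} → {E : Finset X // ∀ x ∈ E, x ∈ Y} :=
    fun t E => ⟨E.1 ∪ (Finset.univ.image (p t E) ∪ if y t ∈ Y then {y t} else ∅), by
      intro x hx
      rcases Finset.mem_union.1 hx with h | h
      · exact E.2 x h
      rcases Finset.mem_union.1 h with h | h
      · obtain ⟨i, -, rfl⟩ := Finset.mem_image.1 h
        exact hp2 t E i
      · split_ifs at h with h1
        · rw [Finset.mem_singleton] at h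
          rw [h]; exact h1
        · simp at h⟩
  let E : ℕ → {E : Finset X // ∀ x ∈ E, x ∈ Y} := fun t => Nat.rec ⟨∅, by simp⟩ nxt t
  have hEs : ∀ t, E (t + 1) = nxt t (E t) := fun _ => rfl
  have hEmono : Monotone fun t => (E t).1 := by
    refine monotone_nat_of_le_succ fun t => ?_
    rw [hEs]
    exact Finset.subset_union_left
  have hEp : ∀ t i, p t (E t) i ∈ (E (t + 1)).1 := by
    intro t i
    rw [hEs]
    exact Finset.mem_union_right _ (Finset.mem_union_left _
      (Finset.mem_image_of_mem _ (Finset.mem_univ _)))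
  have hEy : ∀ t, y t ∈ Y → y t ∈ (E (t + 1)).1 := by
    intro t ht
    rw [hEs]
    refine Finset.mem_union_right _ (Finset.mem_union_right _ ?_)
    rw [if_pos ht]
    simp
  -- the pieces
  let K : (t : ℕ) → Fin (task (Nat.unpair t).1).n → Set X := fun t i => V (p t (E t) i) (M t (E t))
  have hKE : ∀ t t', t < t' → ∀ i, ∀ x ∈ (E (t + 1)).1, Disjoint (K t' i) (V x 0) := by
    intro t t' htt i x hx
    exact hM1 t' (E t') i x (hEmono htt hx)
  have hKdis : ∀ t t', t < t' → ∀ i i', Disjoint (K t i) (K t' i') := by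
    intro t t' htt i i'
    have h1 := hKE t t' htt i' _ (hEp t i)
    exact h1.symm.mono_left (hS.anti _ (hp2 t (E t) i) (Nat.zero_le _))
  refine ⟨fun k m => {z | ∃ t, m ≤ t ∧ ∃ i, (task (Nat.unpair t).1).κ i = k ∧ z ∈ K t i},
    ?_, ?_, ?_, ?_, ?_, ?_, ?_⟩
  · rintro k m z ⟨t, -, i, -, hz⟩
    exact hS.sub _ (hp2 t (E t) i) _ hz
  · rintro k m m' hm z ⟨t, ht, hz⟩
    exact ⟨t, hm.trans ht, hz⟩
  · rintro k m z ⟨t, ht, i, hi, hz⟩
    obtain ⟨m', hm'⟩ := hS.opn _ (hp2 t (E t) i) _ z hz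
    exact ⟨m', fun w hw => ⟨t, ht, i, hi, hm' hw⟩⟩
  · intro k m z hz hzW
    obtain ⟨t0, rfl⟩ := hy hz
    have h1 : ∀ᶠ m' in atTop, ∀ t ∈ Finset.range (t0 + 1), ∀ i,
        m ≤ t → (task (Nat.unpair t).1).κ i = k → Disjoint (V (y t0) m') (K t i) := by
      rw [Finset.eventually_all]
      intro t _
      simp only [eventually_all]
      intro i hmt hi
      have h2 : y t0 ∉ K t i := fun h => hzW ⟨t, hmt, i, hi, h⟩
      obtain ⟨m', hm'⟩ := hS.cls _ (hp2 t (E t) i) _ (y t0) hz h2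
      filter_upwards [eventually_ge_atTop m'] with m'' hm''
      exact hm'.mono_left (hS.anti _ hz hm'')
    obtain ⟨m', hm'⟩ := h1.exists
    refine ⟨m', Set.disjoint_left.2 ?_⟩
    rintro w hw ⟨t, ht, i, hi, hwK⟩
    by_cases htt : t < t0 + 1
    · exact Set.disjoint_left.1 (hm' t (Finset.mem_range.2 htt) i ht hi) hw hwK
    · have h3 := hKE t0 t (by omega) i _ (hEy t0 hz)
      exact Set.disjoint_left.1 h3 hwK (hS.anti _ hz (Nat.zero_le _) hw)
  · intro k z hz
    obtain ⟨t0, rfl⟩ := hy hz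
    refine ⟨t0 + 1, Set.disjoint_left.2 ?_⟩
    rintro w ⟨t, ht, i, hi, hwK⟩ hw
    exact Set.disjoint_left.1 (hKE t0 t (by omega) i _ (hEy t0 hz)) hwK hw
  · intro k k' m m' hkk
    refine Set.disjoint_left.2 ?_
    rintro w ⟨t, -, i, hi, hw⟩ ⟨t', -, i', hi', hw'⟩
    rcases lt_trichotomy t t' with h | h | h
    · exact Set.disjoint_left.1 (hKdis t t' h i i') hw hw'
    · subst h
      have hii : i ≠ i' := by
        rintro rfl
        exact hkk (hi.symm.trans hi')
      exact Set.disjoint_left.1 (hM2 t (E t) i i' hii) hw hw'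
    · exact Set.disjoint_left.1 (hKdis t' t h i' i) hw' hw
  · intro t0 m
    have h1 : (Nat.unpair (Nat.pair t0 m)).1 = t0 := by rw [Nat.unpair_pair]
    have h2 : m ≤ Nat.pair t0 m := Nat.right_le_pair t0 m
    have h3 : ∃ q ∈ (task (Nat.unpair (Nat.pair t0 m)).1).Sol, ∀ i, ∃ t, m ≤ t ∧
        ∃ j, (task (Nat.unpair t).1).κ j = (task (Nat.unpair (Nat.pair t0 m)).1).κ i ∧
          q i ∈ K t j :=
      ⟨p _ (E (Nat.pair t0 m)), hp1 _ _, fun i => ⟨Nat.pair t0 m, h2, i, rfl,
        hS.self _ (hp2 _ _ i) _⟩⟩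
    rw [h1] at h3
    exact h3

/-! ### The recursion -/

/-- the basic sets from the tables of the levels -/
def U (V : Om → ℕ → ℕ → Set X) (x : X) (m : ℕ) : Set X := insert x (V x.1 x.2 m)

/-- the points of level less than `α` -/
def Below (α : Om) : Set X := {x | x.1 < α}

/-- the tuples of length `n` guessed at `α` -/
def Sol (e : Om → Σ n : ℕ, (Fin n → X)) (G : Om → Om → Prop) (α : Om) (n : ℕ) :
    Set (Fin n → X) :=
  {s | Function.Injective s ∧ (∀ i, (s i).1 < α) ∧ ∃ a, a < α ∧ G α a ∧ e a = ⟨n, s⟩}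

/-- the demands on the table `W` of the level `α` -/
structure Ext (e : Om → Σ n : ℕ, (Fin n → X)) (G : Om → Om → Prop) (α : Om)
    (V : Om → ℕ → ℕ → Set X) (W : ℕ → ℕ → Set X) : Prop where
  sub : ∀ k m, W k m ⊆ Below α
  anti : ∀ k, Antitone (W k)
  opn : ∀ k m, ∀ y ∈ W k m, ∃ m', U V y m' ⊆ W k m
  cls : ∀ k m, ∀ y ∈ Below α, y ∉ W k m → ∃ m', Disjoint (U V y m') (W k m)
  far : ∀ k, ∀ y ∈ Below α, ∃ m, Disjoint (W k m) (U V y 0)
  dis : ∀ k k' m m', k ≠ k' → Disjoint (W k m) (W k' m')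
  taskA : ∀ k m μ, μ < α → ∃ p ∈ W k m, μ ≤ p.1
  taskB : ∀ n, ∀ κ : Fin n → ℕ, Function.Injective κ →
    (∀ E : Finset X, (∀ x ∈ E, x ∈ Below α) → ∃ s ∈ Sol e G α n, ∀ i, ∀ x ∈ E, s i ∉ U V x 0) →
    ∀ m, ∃ s ∈ Sol e G α n, ∀ i, s i ∈ W (κ i) m

lemma countable_Below (α : Om) : (Below α).Countable := by
  have h1 : Below α = (Iio α) ×ˢ (univ : Set ℕ) := by
    ext x
    simp [Below]
  rw [h1]
  have h2 : (Iio α).Countable := by
    have := countable_Iio α
    exact Set.countable_coe_iff.1 this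
  exact h2.prod countable_univ

lemma exists_ext {e : Om → Σ n : ℕ, (Fin n → X)} {G : Om → Om → Prop} {α : Om}
    {V : Om → ℕ → ℕ → Set X} (hS : Sys (Below α) (U V))
    (hlev : ∀ x ∈ Below α, ∀ y ∈ U V x 0, y = x ∨ y.1 < x.1) : ∃ W, Ext e G α V W := by
  classical
  -- the tasks
  let okA : ∀ (k : ℕ) (μ : Iio α), Task (Below α) (U V) := fun k μ =>
    { n := 1, κ := fun _ => k, inj := fun i j _ => Subsingleton.elim i j
      Sol := {p | (μ : Om) ≤ (p 0).1}
      ok := by
        intro E hE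
        have h1 : ∃ ν : Om, ν < α ∧ (μ : Om) ≤ ν ∧ ∀ x ∈ E, x.1 ≤ ν := by
          have hne : (insert (μ : Om) (E.image Prod.fst)).Nonempty := Finset.insert_nonempty _ _
          refine ⟨(insert (μ : Om) (E.image Prod.fst)).max' hne, ?_, ?_, ?_⟩
          · rw [Finset.max'_lt_iff]
            intro y hy
            rcases Finset.mem_insert.1 hy with h | h
            · rw [h]; exact μ.2
            · obtain ⟨x, hx, rfl⟩ := Finset.mem_image.1 h
              exact hE x hx
          · exact Finset.le_max' _ _ (Finset.mem_insert_self _ _)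
          · intro x hx
            exact Finset.le_max' _ _ (Finset.mem_insert_of_mem (Finset.mem_image_of_mem _ hx))
        obtain ⟨ν, h1, h2, h3⟩ := h1
        obtain ⟨j, hj⟩ := Infinite.exists_notMem_finset (E.image Prod.snd)
        refine ⟨fun _ => (ν, j), h2, fun i j _ => Subsingleton.elim i j, fun _ => h1, ?_⟩
        intro _ x hx hmem
        rcases hlev x (hE x hx) _ hmem with h | h
        · exact hj (Finset.mem_image.2 ⟨x, hx, by rw [← h]⟩)
        · exact absurd (h3 x hx) (not_le.2 h) }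
  let dummy : Task (Below α) (U V) :=
    { n := 0, κ := Fin.elim0, inj := fun i => i.elim0, Sol := univ
      ok := fun E _ => ⟨Fin.elim0, mem_univ _, fun i => i.elim0, fun i => i.elim0,
        fun i => i.elim0⟩ }
  let okB : ∀ (n : ℕ) (κ : Fin n ↪ ℕ), Task (Below α) (U V) := fun n κ =>
    if h : (∀ E : Finset X, (∀ x ∈ E, x ∈ Below α) →
        ∃ s ∈ Sol e G α n, ∀ i, ∀ x ∈ E, s i ∉ U V x 0) then
      { n := n, κ := κ, inj := κ.injective, Sol := Sol e G α n
        ok := fun E hE => by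
          obtain ⟨s, hs, hs1⟩ := h E hE
          exact ⟨s, hs, hs.1, hs.2.1, hs1⟩ }
    else dummy
  let all : Unit ⊕ ((ℕ × Iio α) ⊕ (Σ n : ℕ, (Fin n ↪ ℕ))) → Task (Below α) (U V) := fun i =>
    match i with
    | Sum.inl _ => dummy
    | Sum.inr (Sum.inl p) => okA p.1 p.2
    | Sum.inr (Sum.inr p) => okB p.1 p.2
  have hc : Countable (Iio α) := countable_Iio α
  have hc2 : ∀ n : ℕ, Countable (Fin n ↪ ℕ) := fun n =>
    Function.Injective.countable (f := fun κ : Fin n ↪ ℕ => (κ : Fin n → ℕ)) DFunLike.coe_injective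
  obtain ⟨num, hnum⟩ := exists_surjective_nat (Unit ⊕ ((ℕ × Iio α) ⊕ (Σ n : ℕ, (Fin n ↪ ℕ))))
  obtain ⟨W, h1, h2, h3, h4, h5, h6, h7⟩ := step (countable_Below α) hS fun t => all (num t)
  have h7' : ∀ i m, ∃ p ∈ (all i).Sol, ∀ j, p j ∈ W ((all i).κ j) m := by
    intro i m
    obtain ⟨t, rfl⟩ := hnum i
    exact h7 t m
  refine ⟨W, h1, h2, h3, h4, h5, h6, ?_, ?_⟩
  · intro k m μ hμ
    obtain ⟨p, hp, hp1⟩ := h7' (Sum.inr (Sum.inl (k, ⟨μ, hμ⟩))) m
    exact ⟨p (0 : Fin 1), hp1 (0 : Fin 1), hp⟩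
  · intro n κ hκ hok m
    have h8 := h7' (Sum.inr (Sum.inr ⟨n, ⟨κ, hκ⟩⟩)) m
    have h9 : all (Sum.inr (Sum.inr ⟨n, ⟨κ, hκ⟩⟩)) =
        { n := n, κ := κ, inj := hκ, Sol := Sol e G α n
          ok := fun E hE => by
            obtain ⟨s, hs, hs1⟩ := hok E hE
            exact ⟨s, hs, hs.1, hs.2.1, hs1⟩ } := by
      change okB n ⟨κ, hκ⟩ = _
      simp only [okB]
      rw [dif_pos hok]
      rfl
    rw [h9] at h8
    exact h8

lemma U_level {V : Om → ℕ → ℕ → Set X} {x y : X} {m : ℕ} (h : ∀ k m, V x.1 k m ⊆ Below x.1)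
    (hy : y ∈ U V x m) : y = x ∨ y.1 < x.1 := by
  rcases hy with h1 | h1
  · exact Or.inl h1
  · exact Or.inr (h _ _ h1)

lemma sys_of_ext {e : Om → Σ n : ℕ, (Fin n → X)} {G : Om → Om → Prop} {α : Om}
    {V : Om → ℕ → ℕ → Set X} (h : ∀ β < α, Ext e G β V (V β)) : Sys (Below α) (U V) where
  anti := by
    intro y hy m m' hm
    exact insert_subset_insert ((h y.1 hy).anti y.2 hm)
  self := fun y _ m => mem_insert _ _
  sub := by
    rintro y hy m z (rfl | hz)
    · exact hy
    · exact lt_trans (show z.1 < y.1 from (h y.1 hy).sub _ _ hz) (show y.1 < α from hy)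
  opn := by
    rintro y hy m z (rfl | hz)
    · exact ⟨m, subset_rfl⟩
    · obtain ⟨m', hm'⟩ := (h y.1 hy).opn _ _ z hz
      exact ⟨m', hm'.trans (subset_insert _ _)⟩
  cls := by
    intro y hy m z hz hzy
    rw [U, mem_insert_iff, not_or] at hzy
    rcases lt_trichotomy z.1 y.1 with h1 | h1 | h1
    · obtain ⟨m', hm'⟩ := (h y.1 hy).cls y.2 m z h1 hzy.2
      refine ⟨m', ?_⟩
      change Disjoint (U V z m') (insert y (V y.1 y.2 m))
      rw [disjoint_insert_right]
      refine ⟨fun hyz => ?_, hm'⟩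
      rcases U_level (fun k m => (h z.1 hz).sub k m) hyz with h2 | h2
      · rw [h2] at h1; exact lt_irrefl _ h1
      · exact lt_asymm h1 h2
    · have h2 : z.2 ≠ y.2 := fun h2 => hzy.1 (Prod.ext h1 h2)
      refine ⟨0, ?_⟩
      rw [U, U, disjoint_insert_left, disjoint_insert_right, mem_insert_iff, not_or]
      refine ⟨⟨hzy.1, fun h3 => ?_⟩, fun h3 => ?_, ?_⟩
      · have h4 : z.1 < y.1 := (h y.1 hy).sub _ _ h3
        rw [h1] at h4
        exact lt_irrefl _ h4
      · have h4 : y.1 < z.1 := (h z.1 hz).sub _ _ h3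
        rw [h1] at h4
        exact lt_irrefl _ h4
      · have h5 := (h z.1 hz).dis z.2 y.2 0 m h2
        rw [← h1]
        exact h5
    · obtain ⟨m', hm'⟩ := (h z.1 hz).far z.2 y h1
      refine ⟨m', ?_⟩
      have h3 : Disjoint (U V z m') (U V y 0) := by
        rw [U, disjoint_insert_left]
        refine ⟨fun h2 => ?_, hm'⟩
        rcases U_level (fun k m => (h y.1 hy).sub k m) h2 with h4 | h4
        · exact hzy.1 h4
        · exact lt_asymm h1 h4
      exact h3.mono_right (insert_subset_insert ((h y.1 hy).anti y.2 (Nat.zero_le m)))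
  t1 := by
    intro y hy z hz hyz
    by_cases h1 : z.1 < y.1
    · obtain ⟨m, hm⟩ := (h y.1 hy).far y.2 z h1
      refine ⟨m, ?_⟩
      rw [U, mem_insert_iff, not_or]
      exact ⟨Ne.symm hyz, fun h2 => Set.disjoint_left.1 hm h2 (mem_insert _ _)⟩
    · refine ⟨0, ?_⟩
      rw [U, mem_insert_iff, not_or]
      exact ⟨Ne.symm hyz, fun h2 => h1 ((h y.1 hy).sub _ _ h2)⟩

/-- the table `V` cut at `α` -/
noncomputable def cut (α : Om) (V : Om → ℕ → ℕ → Set X) : Om → ℕ → ℕ → Set X :=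
  fun β => by classical exact if β < α then V β else fun _ _ => ∅

lemma U_cut {α : Om} {V : Om → ℕ → ℕ → Set X} {x : X} (hx : x ∈ Below α) (m : ℕ) :
    U (cut α V) x m = U V x m := by
  unfold U cut
  rw [if_pos (show x.1 < α from hx)]

lemma ext_cut {e : Om → Σ n : ℕ, (Fin n → X)} {G : Om → Om → Prop} {α : Om}
    {V : Om → ℕ → ℕ → Set X} {W : ℕ → ℕ → Set X} :
    Ext e G α (cut α V) W ↔ Ext e G α V W := by
  have key : ∀ V V' : Om → ℕ → ℕ → Set X, (∀ x ∈ Below α, ∀ m, U V' x m = U V x m) →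
      Ext e G α V W → Ext e G α V' W := by
    intro V V' hVV h
    refine ⟨h.sub, h.anti, ?_, ?_, ?_, h.dis, h.taskA, ?_⟩
    · intro k m y hy
      obtain ⟨m', hm'⟩ := h.opn k m y hy
      exact ⟨m', by rw [hVV y (h.sub _ _ hy)]; exact hm'⟩
    · intro k m y hy hyW
      obtain ⟨m', hm'⟩ := h.cls k m y hy hyW
      exact ⟨m', by rw [hVV y hy]; exact hm'⟩
    · intro k y hy
      obtain ⟨m', hm'⟩ := h.far k y hy
      exact ⟨m', by rw [hVV y hy]; exact hm'⟩
    · intro n κ hκ hok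
      refine h.taskB n κ hκ fun E hE => ?_
      obtain ⟨s, hs, hs1⟩ := hok E hE
      exact ⟨s, hs, fun i x hx => by rw [← hVV x (hE x hx)]; exact hs1 i x hx⟩
  exact ⟨key _ _ fun x hx m => (U_cut hx m).symm, key _ _ fun x hx m => U_cut hx m⟩

open Classical in
/-- the recursion step -/
noncomputable def nextW (e : Om → Σ n : ℕ, (Fin n → X)) (G : Om → Om → Prop) (α : Om)
    (rec : (β : Om) → β < α → ℕ → ℕ → Set X) : ℕ → ℕ → Set X :=
  if h : ∃ W, Ext e G α (fun β => if hβ : β < α then rec β hβ else fun _ _ => ∅) W then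
    h.choose else fun _ _ => ∅

/-- the table of the space -/
noncomputable def tab (e : Om → Σ n : ℕ, (Fin n → X)) (G : Om → Om → Prop) :
    Om → ℕ → ℕ → Set X :=
  (wellFounded_lt (α := Om)).fix (nextW e G)

lemma tab_eq (e : Om → Σ n : ℕ, (Fin n → X)) (G : Om → Om → Prop) (α : Om) :
    tab e G α = nextW e G α (fun β _ => tab e G β) := by
  unfold tab
  rw [WellFounded.fix_eq]

lemma tab_ext (e : Om → Σ n : ℕ, (Fin n → X)) (G : Om → Om → Prop) (α : Om) :
    Ext e G α (tab e G) (tab e G α) := by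
  induction α using (wellFounded_lt (α := Om)).induction with
  | _ α ih =>
    have hS : Sys (Below α) (U (tab e G)) := sys_of_ext ih
    obtain ⟨W, hW⟩ := exists_ext (e := e) (G := G) hS fun x hx y hy =>
      U_level (fun k m => (ih x.1 hx).sub k m) hy
    have h1 : (fun β => if hβ : β < α then tab e G β else fun _ _ => ∅) = cut α (tab e G) := by
      funext β
      unfold cut
      by_cases h : β < α
      · rw [dif_pos h, if_pos h]
      · rw [dif_neg h, if_neg h]
    have hex : ∃ W, Ext e G α (fun β => if hβ : β < α then tab e G β else fun _ _ => ∅) W := by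
      rw [h1]
      exact ⟨W, ext_cut.2 hW⟩
    have h2 : Ext e G α (cut α (tab e G)) (tab e G α) := by
      rw [← h1, tab_eq e G α]
      unfold nextW
      rw [dif_pos hex]
      exact hex.choose_spec
    exact ext_cut.1 h2

/-! ### The topology -/

/-- `X` with the topology of the table `V` -/
structure IsTab (e : Om → Σ n : ℕ, (Fin n → X)) (G : Om → Om → Prop)
    (V : Om → ℕ → ℕ → Set X) [TopologicalSpace X] : Prop where
  ext : ∀ α, Ext e G α V (V α)
  top : ∀ O : Set X, IsOpen O ↔ ∀ x ∈ O, ∃ m, ∀ m' ≥ m, U V x m' ⊆ O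

/-- the topology of a table -/
@[reducible]
def topOf (V : Om → ℕ → ℕ → Set X) : TopologicalSpace X where
  IsOpen O := ∀ x ∈ O, ∃ m, ∀ m' ≥ m, U V x m' ⊆ O
  isOpen_univ := fun _ _ => ⟨0, fun _ _ => subset_univ _⟩
  isOpen_inter := by
    intro s t hs ht x hx
    obtain ⟨m, hm⟩ := hs x hx.1
    obtain ⟨m', hm'⟩ := ht x hx.2
    exact ⟨max m m', fun k hk => subset_inter (hm k ((le_max_left _ _).trans hk))
      (hm' k ((le_max_right _ _).trans hk))⟩
  isOpen_sUnion := by
    intro S hS x hx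
    obtain ⟨s, hs, hxs⟩ := hx
    obtain ⟨m, hm⟩ := hS s hs x hxs
    exact ⟨m, fun k hk => (hm k hk).trans (subset_sUnion_of_mem hs)⟩

lemma mem_U {V : Om → ℕ → ℕ → Set X} (x : X) (m : ℕ) : x ∈ U V x m := mem_insert _ _

lemma exists_gt (a : Om) : ∃ b : Om, a < b := by
  obtain ⟨b, hb⟩ := exists_bound fun _ => a
  exact ⟨b, hb 0⟩

section space

variable {e : Om → Σ n : ℕ, (Fin n → X)} {G : Om → Om → Prop} {V : Om → ℕ → ℕ → Set X}
  [TopologicalSpace X]

lemma IsTab.lev (hV : IsTab e G V) {x y : X} {m : ℕ} (h : y ∈ U V x m) : y = x ∨ y.1 < x.1 :=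
  U_level (fun k m => (hV.ext x.1).sub k m) h

lemma IsTab.anti (hV : IsTab e G V) (x : X) : Antitone (U V x) := fun _ _ hm =>
  insert_subset_insert ((hV.ext x.1).anti x.2 hm)

lemma IsTab.exists_sys (hV : IsTab e G V) (x y : X) :
    ∃ α, x ∈ Below α ∧ y ∈ Below α ∧ Sys (Below α) (U V) := by
  obtain ⟨α, hα⟩ := exists_gt (max x.1 y.1)
  exact ⟨α, lt_of_le_of_lt (le_max_left _ _) hα, lt_of_le_of_lt (le_max_right _ _) hα,
    sys_of_ext fun β _ => hV.ext β⟩

lemma IsTab.exists_sub (hV : IsTab e G V) {x z : X} {m : ℕ} (hz : z ∈ U V x m) :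
    ∃ m', U V z m' ⊆ U V x m := by
  obtain ⟨α, h1, h2, h3⟩ := hV.exists_sys x z
  exact h3.opn x h1 m z hz

lemma IsTab.isOpen_U (hV : IsTab e G V) (x : X) (m : ℕ) : IsOpen (U V x m) := by
  rw [hV.top]
  intro z hz
  obtain ⟨m', hm'⟩ := hV.exists_sub hz
  exact ⟨m', fun k hk => (hV.anti z hk).trans hm'⟩

lemma IsTab.isClosed_U (hV : IsTab e G V) (x : X) (m : ℕ) : IsClosed (U V x m) := by
  rw [← isOpen_compl_iff, hV.top]
  intro z hz
  obtain ⟨α, h1, h2, h3⟩ := hV.exists_sys x z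
  obtain ⟨m', hm'⟩ := h3.cls x h1 m z h2 hz
  exact ⟨m', fun k hk => Set.subset_compl_iff_disjoint_right.2 (hm'.mono_left (hV.anti z hk))⟩

lemma IsTab.exists_U (hV : IsTab e G V) {O : Set X} (hO : IsOpen O) {x : X} (hx : x ∈ O) :
    ∃ m, U V x m ⊆ O := by
  obtain ⟨m, hm⟩ := (hV.top O).1 hO x hx
  exact ⟨m, hm m le_rfl⟩

lemma IsTab.t35 (hV : IsTab e G V) : T35Space X := by
  have h1 : T0Space X := by
    refine ⟨fun x y hxy => ?_⟩
    by_contra hne
    obtain ⟨α, h1, h2, h3⟩ := hV.exists_sys x y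
    obtain ⟨m, hm⟩ := h3.t1 x h1 y h2 hne
    exact hm ((hxy.mem_open_iff (hV.isOpen_U x m)).1 (mem_U x m))
  have h2 : CompletelyRegularSpace X := by
    refine CompletelyRegularSpace.of_isTopologicalBasis_clopens ?_
    refine TopologicalSpace.isTopologicalBasis_of_isOpen_of_nhds (fun s hs => hs.2) ?_
    intro x O hx hO
    obtain ⟨m, hm⟩ := hV.exists_U hO hx
    exact ⟨U V x m, ⟨hV.isClosed_U x m, hV.isOpen_U x m⟩, mem_U x m, hm⟩
  exact {}

end space

/-! ### Diamond -/

/-- `C` is a closed unbounded subset of `ω₁` (the sentence named by `IsClubName`) -/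
def IsClub (C : Om → Prop) : Prop :=
  (∀ a : Om, ∃ b : Om, a < b ∧ C b) ∧
    ∀ a : Om, (∃ b, b < a) → (∀ b : Om, b < a → ∃ c : Om, (b < c ∧ c < a) ∧ C c) → C a

/-- diamond: the sentence which `DiamondHolds P` says is forced, evaluated in the universe -/
def Diamond : Prop :=
  ∃ A : Om → Om → Prop, ∀ S : Om → Prop, ∀ C : Om → Prop,
    IsClub C → ∃ a : Om, C a ∧ ∀ b : Om, b < a → (S b ↔ A a b)

lemma exists_gt_image (f : Om → Om) (a : Om) : ∃ c : Om, ∀ b ≤ a, f b < c := by
  have h1 : (Iic a).Countable := by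
    rw [← Iio_insert]
    exact (Set.countable_coe_iff.1 (countable_Iio a)).insert a
  have h2 : (f '' Iic a).Countable := h1.image f
  have h3 : (f '' Iic a).Nonempty := ⟨f a, mem_image_of_mem _ (mem_Iic.2 le_rfl)⟩
  obtain ⟨g, hg⟩ := h2.exists_eq_range h3
  obtain ⟨c, hc⟩ := exists_bound g
  refine ⟨c, fun b hb => ?_⟩
  have h4 : f b ∈ range g := by
    rw [← hg]
    exact mem_image_of_mem _ hb
  obtain ⟨k, hk⟩ := h4
  rw [← hk]
  exact hc k

lemma isClub_closure (f : Om → Om) : IsClub fun a => (∃ b, b < a) ∧ ∀ b < a, f b < a := by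
  constructor
  · intro a
    choose g hg using exists_gt_image f
    obtain ⟨g', hg'⟩ : ∃ g' : Om → Om, ∀ a, g a ≤ g' a ∧ a < g' a := by
      choose g2 hg2 using exists_gt
      exact ⟨fun a => max (g a) (g2 a), fun a => ⟨le_max_left _ _,
        lt_of_lt_of_le (hg2 a) (le_max_right _ _)⟩⟩
    let s : ℕ → Om := fun k => g'^[k] a
    have hs : ∀ k, s (k + 1) = g' (s k) := fun k => Function.iterate_succ_apply' g' k a
    refine ⟨Pool.Agent.Helper292.ForceCH.ub s, Pool.Agent.Helper292.ForceCH.lt_ub s 0,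
      ⟨a, Pool.Agent.Helper292.ForceCH.lt_ub s 0⟩, fun b hb => ?_⟩
    obtain ⟨k, hk⟩ := Pool.Agent.Helper292.ForceCH.ub_le s hb
    have h1 : f b < s (k + 1) := by
      rw [hs]
      exact lt_of_lt_of_le (hg _ b hk) (hg' _).1
    exact h1.trans (Pool.Agent.Helper292.ForceCH.lt_ub s (k + 1))
  · intro a hne h
    refine ⟨hne, fun b hb => ?_⟩
    obtain ⟨c, ⟨h1, h2⟩, -, h3⟩ := h b hb
    exact (h3 b h1).trans h2

lemma exists_level_bound {α : Om} (hα : ∃ b, b < α) (E : Finset X) (hE : ∀ x ∈ E, x.1 < α) :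
    ∃ ν < α, ∀ x ∈ E, x.1 ≤ ν := by
  obtain ⟨b, hb⟩ := hα
  have hne : (insert b (E.image Prod.fst)).Nonempty := Finset.insert_nonempty _ _
  refine ⟨(insert b (E.image Prod.fst)).max' hne, ?_, ?_⟩
  · rw [Finset.max'_lt_iff]
    intro y hy
    rcases Finset.mem_insert.1 hy with h | h
    · rw [h]; exact hb
    · obtain ⟨x, hx, rfl⟩ := Finset.mem_image.1 h
      exact hE x hx
  · intro x hx
    exact Finset.le_max' _ _ (Finset.mem_insert_of_mem (Finset.mem_image_of_mem _ hx))

/-- `G` guesses the sets of the countable ordinals -/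
def Guess (G : Om → Om → Prop) : Prop := ∀ S : Om → Prop, ∀ C : Om → Prop,
    IsClub C → ∃ a : Om, C a ∧ ∀ b : Om, b < a → (S b ↔ G a b)

lemma exists_guess {e : Om → Σ n : ℕ, (Fin n → X)} {G : Om → Om → Prop}
    (he : Function.Surjective e) (hG : Guess G) {V : Om → ℕ → ℕ → Set X}
    (hlev : ∀ x y : X, y ∈ U V x 0 → y = x ∨ y.1 < x.1) {n : ℕ}
    (A : Set (Fin n → X)) (hinj : ∀ s ∈ A, Function.Injective s)
    (hA : ∀ μ : Om, ∃ s ∈ A, ∀ i, μ < (s i).1) :
    ∃ α : Om, (∀ s ∈ Sol e G α n, s ∈ A) ∧ ∀ E : Finset X, (∀ x ∈ E, x ∈ Below α) →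
      ∃ s ∈ Sol e G α n, ∀ i, ∀ x ∈ E, s i ∉ U V x 0 := by
  classical
  choose s hs hs1 using hA
  choose c hc using fun μ => he ⟨n, s μ⟩
  -- bounds of the levels of the coded tuples
  have h1 : ∀ a : Om, ∃ b : Om, ∀ i, ((e a).2 i).1 < b := by
    intro a
    obtain ⟨b, hb⟩ := exists_bound fun k => if h : k < (e a).1 then ((e a).2 ⟨k, h⟩).1 else a
    refine ⟨b, fun i => ?_⟩
    have h2 := hb i
    rw [dif_pos i.2] at h2
    exact h2
  choose h hh using h1
  obtain ⟨α, ⟨hα, hcl⟩, hg⟩ := hG (fun a => ∃ s ∈ A, e a = ⟨n, s⟩)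
    (fun a => (∃ b, b < a) ∧ ∀ b < a, max (h b) (c b) < a) (isClub_closure _)
  refine ⟨α, ?_, ?_⟩
  · rintro t ⟨-, -, a, ha, hGa, hea⟩
    obtain ⟨t', ht', hea'⟩ := (hg a ha).2 hGa
    rw [hea] at hea'
    have h2 : t = t' := by
      have := hea'
      simpa using this
    rw [h2]; exact ht'
  · intro E hE
    obtain ⟨ν, hν, hE'⟩ := exists_level_bound hα E hE
    have hcν : c ν < α := lt_of_le_of_lt (le_max_right _ _) (hcl ν hν)
    have hhν : h (c ν) < α := lt_of_le_of_lt (le_max_left _ _) (hcl (c ν) hcν)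
    have h3 : ∀ i, (s ν i).1 < h (c ν) := by
      have h4 := hh (c ν)
      rw [hc ν] at h4
      exact h4
    refine ⟨s ν, ⟨hinj _ (hs ν), fun i => (h3 i).trans hhν, c ν, hcν,
      (hg _ hcν).1 ⟨s ν, hs ν, hc ν⟩, hc ν⟩, fun i x hx hmem => ?_⟩
    have h5 : x.1 ≤ ν := hE' x hx
    rcases hlev x _ hmem with h6 | h6
    · have h7 := hs1 ν i
      rw [h6] at h7
      exact absurd h5 (not_le.2 h7)
    · exact absurd ((hs1 ν i).trans h6) (not_lt.2 h5)

section space

variable {e : Om → Σ n : ℕ, (Fin n → X)} {G : Om → Om → Prop} {V : Om → ℕ → ℕ → Set X}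
  [TopologicalSpace X]

/-- the main property of the space -/
theorem IsTab.star (hV : IsTab e G V) (he : Function.Surjective e) (hG : Guess G) {n : ℕ}
    (A : Set (Fin n → X)) (hinj : ∀ s ∈ A, Function.Injective s)
    (hA : ∀ μ : Om, ∃ s ∈ A, ∀ i, μ < (s i).1) :
    ∃ α : Om, ∀ z : Fin n → X, Function.Injective z → (∀ i, α ≤ (z i).1) → ∀ m : Fin n → ℕ,
      ∃ s ∈ A, (∀ i, (s i).1 < α) ∧ ∀ i, s i ∈ U V (z i) (m i) := by
  classical
  obtain ⟨α, hSA, hok⟩ := exists_guess (V := V) he hG (fun x y h => hV.lev h) A hinj hA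
  have key : ∀ β : Om, α ≤ β → ∀ z : Fin n → X, Function.Injective z →
      (∀ i, α ≤ (z i).1 ∧ (z i).1 ≤ β) → ∀ m : Fin n → ℕ,
      ∃ s ∈ Sol e G α n, ∀ i, s i ∈ U V (z i) (m i) := by
    intro β
    induction β using (wellFounded_lt (α := Om)).induction with
    | _ β ih =>
      intro hαβ z hz hzl m
      rcases hαβ.eq_or_lt with h1 | h1
      · -- all the points are in the level `α`
        subst h1
        have h2 : ∀ i, (z i).1 = α := fun i => le_antisymm (hzl i).2 (hzl i).1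
        obtain ⟨M, hM⟩ : ∃ M, ∀ i, m i ≤ M :=
          ⟨Finset.univ.sup m, fun i => Finset.le_sup (Finset.mem_univ i)⟩
        obtain ⟨s, hs, hs1⟩ := (hV.ext α).taskB n (fun i => (z i).2)
          (fun i j hij => hz (Prod.ext ((h2 i).trans (h2 j).symm) hij)) hok M
        refine ⟨s, hs, fun i => hV.anti (z i) (hM i) (Or.inr ?_)⟩
        rw [h2 i]
        exact hs1 i
      · -- move the points of the level `β` down
        have h2 : ∀ i, ∃ w : X, (α ≤ w.1 ∧ w.1 < β) ∧ w ∈ U V (z i) (m i) ∧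
            ((z i).1 < β → w = z i) ∧ ((z i).1 = β → w ∈ V β (z i).2 0 ∧
              ∀ j, (z j).1 < β → w ≠ z j) := by
          intro i
          rcases (hzl i).2.eq_or_lt with h3 | h3
          · have h4 : ∀ j, ∃ k, (z j).1 < β → Disjoint (V β (z i).2 k) (U V (z j) 0) := by
              intro j
              by_cases h5 : (z j).1 < β
              · obtain ⟨k, hk⟩ := (hV.ext β).far (z i).2 (z j) h5
                exact ⟨k, fun _ => hk⟩
              · exact ⟨0, fun h6 => absurd h6 h5⟩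
            choose k hk using h4
            obtain ⟨w, hw, hwl⟩ := (hV.ext β).taskA (z i).2 (max (m i) (Finset.univ.sup k)) α h1
            have hwβ : w.1 < β := (hV.ext β).sub _ _ hw
            refine ⟨w, ⟨hwl, hwβ⟩, Or.inr ?_, fun h5 => absurd h3 (ne_of_lt h5), fun _ =>
              ⟨(hV.ext β).anti (z i).2 (Nat.zero_le _) hw, fun j hj hwj => ?_⟩⟩
            · rw [h3]
              exact (hV.ext β).anti (z i).2 (le_max_left _ _) hw
            · have h6 := (hV.ext β).anti (z i).2 ((Finset.le_sup (Finset.mem_univ j)).trans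
                (le_max_right (m i) (Finset.univ.sup k))) hw
              rw [hwj] at h6
              exact Set.disjoint_left.1 (hk j hj) h6 (mem_U _ _)
          · exact ⟨z i, ⟨(hzl i).1, h3⟩, mem_U _ _, fun _ => rfl, fun h4 => absurd h4 (ne_of_lt h3)⟩
        choose w hw1 hw2 hw3 hw4 using h2
        have hwinj : Function.Injective w := by
          intro i j hij
          rcases (hzl i).2.eq_or_lt with h3 | h3 <;> rcases (hzl j).2.eq_or_lt with h4 | h4
          · by_contra hne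
            have h5 : (z i).2 ≠ (z j).2 := fun h6 => hne (hz (Prod.ext (h3.trans h4.symm) h6))
            have h6 := (hV.ext β).dis _ _ 0 0 h5
            refine Set.disjoint_left.1 h6 (hw4 i h3).1 ?_
            rw [hij]
            exact (hw4 j h4).1
          · exact absurd (hij.trans (hw3 j h4)) ((hw4 i h3).2 j h4)
          · exact absurd (hij.symm.trans (hw3 i h3)) ((hw4 j h4).2 i h3)
          · exact hz ((hw3 i h3).symm.trans (hij.trans (hw3 j h4)))
        obtain ⟨ν, hν, hν1⟩ := exists_level_bound ⟨α, h1⟩ (Finset.univ.image w) (by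
          intro x hx
          obtain ⟨i, -, rfl⟩ := Finset.mem_image.1 hx
          exact (hw1 i).2)
        choose m' hm' using fun i => hV.exists_sub (hw2 i)
        obtain ⟨s, hs, hs1⟩ := ih (max α ν) (max_lt h1 hν) (le_max_left _ _) w hwinj
          (fun i => ⟨(hw1 i).1, (hν1 _ (Finset.mem_image_of_mem _ (Finset.mem_univ i))).trans
            (le_max_right _ _)⟩) m'
        exact ⟨s, hs, fun i => hm' i (hs1 i)⟩
  refine ⟨α, fun z hz hzl m => ?_⟩
  obtain ⟨b, hb⟩ : ∃ b : Om, α ≤ b ∧ ∀ i, (z i).1 ≤ b := by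
    have hne : (insert α (Finset.univ.image fun i => (z i).1)).Nonempty :=
      Finset.insert_nonempty _ _
    exact ⟨(insert α (Finset.univ.image fun i => (z i).1)).max' hne,
      Finset.le_max' _ _ (Finset.mem_insert_self _ _), fun i =>
      Finset.le_max' _ _ (Finset.mem_insert_of_mem (Finset.mem_image_of_mem
        (fun i => (z i).1) (Finset.mem_univ i)))⟩
  obtain ⟨s, hs, hs1⟩ := key b hb.1 z hz (fun i => ⟨hzl i, hb.2 i⟩) m
  exact ⟨s, hSA s hs, hs.2.1, hs1⟩

/-- a closed set with points in arbitrarily high levels contains a tail -/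
theorem IsTab.closed_tail (hV : IsTab e G V) (he : Function.Surjective e) (hG : Guess G)
    {A : Set X} (hA : IsClosed A) (hunb : ∀ μ : Om, ∃ x ∈ A, μ < x.1) :
    ∃ α : Om, ∀ x : X, α ≤ x.1 → x ∈ A := by
  obtain ⟨α, hα⟩ := hV.star he hG (n := 1) {s | s 0 ∈ A}
    (fun s _ => Function.injective_of_subsingleton s) (fun μ => by
      obtain ⟨x, hx, hμ⟩ := hunb μ
      exact ⟨fun _ => x, hx, fun _ => hμ⟩)
  refine ⟨α, fun x hx => ?_⟩
  by_contra hxA
  obtain ⟨m, hm⟩ := hV.exists_U hA.isOpen_compl hxA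
  obtain ⟨s, hs, -, hs1⟩ := hα (fun _ => x) (Function.injective_of_subsingleton _)
    (fun _ => hx) (fun _ => m)
  exact hm (hs1 0) hs

/-- a continuous function is constant on a tail -/
theorem IsTab.const_tail (hV : IsTab e G V) (he : Function.Surjective e) (hG : Guess G)
    {f : X → ℝ} (hf : Continuous f) :
    ∃ α : Om, ∀ x y : X, α ≤ x.1 → α ≤ y.1 → f x = f y := by
  have h1 : ∀ q : ℚ, ∃ α : Om, (∀ x : X, α ≤ x.1 → f x ≤ q) ∨ (∀ x : X, α ≤ x.1 → q < f x) := by
    intro q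
    by_cases h : ∀ μ : Om, ∃ x ∈ f ⁻¹' Iic (q : ℝ), μ < x.1
    · obtain ⟨α, hα⟩ := hV.closed_tail he hG (isClosed_Iic.preimage hf) h
      exact ⟨α, Or.inl hα⟩
    · push Not at h
      obtain ⟨μ, hμ⟩ := h
      obtain ⟨α, hα⟩ := exists_gt μ
      refine ⟨α, Or.inr fun x hx => ?_⟩
      by_contra hcon
      exact absurd (hμ x (not_lt.1 hcon)) (not_le.2 (hα.trans_le hx))
  choose a ha using h1
  obtain ⟨α, hα⟩ := exists_bound fun k => a ((Denumerable.eqv ℚ).symm k)
  have hα' : ∀ q : ℚ, a q < α := fun q => by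
    have := hα ((Denumerable.eqv ℚ) q)
    simpa using this
  refine ⟨α, fun x y hx hy => ?_⟩
  have key : ∀ x y : X, α ≤ x.1 → α ≤ y.1 → f x ≤ f y := by
    intro x y hx hy
    by_contra hcon
    rw [not_le] at hcon
    obtain ⟨q, hq1, hq2⟩ := exists_rat_btwn hcon
    rcases ha q with h | h
    · exact absurd (h x ((hα' q).le.trans hx)) (not_le.2 hq2)
    · exact absurd (h y ((hα' q).le.trans hy)) (not_lt.2 hq1.le)
  exact le_antisymm (key x y hx hy) (key y x hy hx)

/-- the members of a discrete set of functions are separated by finite sets -/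
lemma exists_sep (D : Set {f : X → ℝ | Continuous f}) (hD : DiscreteTopology D)
    (f : {f : X → ℝ | Continuous f}) (hf : f ∈ D) : ∃ (F : Finset X) (j : ℕ),
      ∀ g ∈ D, (∀ x ∈ F, |(g : X → ℝ) x - (f : X → ℝ) x| < 1 / ((j : ℝ) + 1)) → g = f := by
  have h1 : IsOpen ({⟨f, hf⟩} : Set D) := isOpen_discrete _
  rw [isOpen_induced_iff] at h1
  obtain ⟨O, hO, hO1⟩ := h1
  rw [isOpen_induced_iff] at hO
  obtain ⟨O', hO', rfl⟩ := hO
  have h2 : (f : X → ℝ) ∈ O' := by
    have : (⟨f, hf⟩ : D) ∈ ((Subtype.val : D → _) ⁻¹' (Subtype.val ⁻¹' O')) := by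
      rw [hO1]; exact mem_singleton _
    exact this
  rw [isOpen_pi_iff] at hO'
  obtain ⟨F, u, hu, huO⟩ := hO' _ h2
  have h3 : ∀ᶠ j : ℕ in atTop, ∀ x ∈ F, Metric.ball ((f : X → ℝ) x) (1 / ((j : ℝ) + 1)) ⊆ u x := by
    rw [Finset.eventually_all]
    intro x hx
    obtain ⟨ε, hε, hεu⟩ := Metric.isOpen_iff.1 (hu x hx).1 _ (hu x hx).2
    have h4 : ∀ᶠ j : ℕ in atTop, 1 / ((j : ℝ) + 1) < ε :=
      tendsto_one_div_add_atTop_nhds_zero_nat.eventually (gt_mem_nhds hε)
    filter_upwards [h4] with j hj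
    exact (Metric.ball_subset_ball hj.le).trans hεu
  obtain ⟨j, hj⟩ := h3.exists
  refine ⟨F, j, fun g hg hgF => ?_⟩
  have h4 : (g : X → ℝ) ∈ O' := by
    refine huO fun x hx => hj x hx ?_
    rw [Metric.mem_ball, Real.dist_eq]
    exact hgF x hx
  have h5 : (⟨g, hg⟩ : D) ∈ ({⟨f, hf⟩} : Set D) := by
    rw [← hO1]
    exact h4
  exact congrArg Subtype.val (mem_singleton_iff.1 h5)

omit [TopologicalSpace X] in
/-- an uncountable set has an uncountable part on which a map to `ℕ` is constant -/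
lemma exists_fibre {T : Type} {S : Set T} (hS : ¬ S.Countable) (φ : T → ℕ) :
    ∃ k, ¬ {t ∈ S | φ t = k}.Countable := by
  by_contra hcon
  push Not at hcon
  refine hS ((countable_iUnion hcon).mono fun t ht => ?_)
  exact mem_iUnion.2 ⟨φ t, ht, rfl⟩

omit [TopologicalSpace X] in
/-- a root for an uncountable family of finite sets of bounded size -/
lemma exists_root {T : Type} {S : Set T} (hS : ¬ S.Countable) (F : T → Finset X) (N : ℕ)
    (hN : ∀ t ∈ S, (F t).card = N) :
    ∃ R : Finset X, ¬ {t ∈ S | R ⊆ F t}.Countable ∧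
      ∀ μ : Om, {t ∈ S | R ⊆ F t ∧ ∃ x ∈ F t, x ∉ R ∧ x.1 ≤ μ}.Countable := by
  classical
  let P : ℕ → Prop := fun k => ∃ R : Finset X, R.card = k ∧ ¬ {t ∈ S | R ⊆ F t}.Countable
  have hP0 : P 0 := ⟨∅, rfl, by simpa using hS⟩
  obtain ⟨R, hRc, hR⟩ := Nat.findGreatest_spec (P := P) (Nat.zero_le N) hP0
  refine ⟨R, hR, fun μ => ?_⟩
  have hmax : ∀ x, x ∉ R → {t ∈ S | insert x R ⊆ F t}.Countable := by
    intro x hx
    by_contra hcon
    have h1 : ({t ∈ S | insert x R ⊆ F t}).Nonempty := by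
      by_contra h2
      rw [not_nonempty_iff_eq_empty] at h2
      rw [h2] at hcon
      exact hcon countable_empty
    obtain ⟨t, ht, htF⟩ := h1
    have h3 : (insert x R).card ≤ N := (Finset.card_le_card htF).trans (hN t ht).le
    have h4 := Nat.le_findGreatest (P := P) h3 ⟨insert x R, rfl, hcon⟩
    rw [Finset.card_insert_of_notMem hx, hRc] at h4
    omega
  obtain ⟨α, hα⟩ := exists_gt μ
  have h5 : (⋃ x ∈ Below α \ (R : Set X), {t ∈ S | insert x R ⊆ F t}).Countable :=
    ((countable_Below α).mono sdiff_subset).biUnion fun x hx => hmax x fun h => hx.2 h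
  refine h5.mono ?_
  rintro t ⟨ht, hRt, x, hxF, hxR, hxμ⟩
  refine mem_iUnion₂.2 ⟨x, ⟨lt_of_le_of_lt hxμ hα, fun h => hxR h⟩, ht, ?_⟩
  exact Finset.insert_subset hxF hRt

/-- a discrete set of continuous functions is countable -/
theorem IsTab.countable_discrete (hV : IsTab e G V) (he : Function.Surjective e) (hG : Guess G)
    (D : Set {f : X → ℝ | Continuous f}) (hD : DiscreteTopology D) : D.Countable := by
  classical
  by_contra hunc
  have h0 : ∀ f : {f : X → ℝ | Continuous f}, ∃ (F : Finset X) (j : ℕ), f ∈ D →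
      ∀ g ∈ D, (∀ x ∈ F, |(g : X → ℝ) x - (f : X → ℝ) x| < 1 / ((j : ℝ) + 1)) → g = f := by
    intro f
    by_cases hf : f ∈ D
    · obtain ⟨F, j, h⟩ := exists_sep D hD f hf
      exact ⟨F, j, fun _ => h⟩
    · exact ⟨∅, 0, fun h => absurd h hf⟩
  choose F j hFj using h0
  obtain ⟨J, hJ⟩ := exists_fibre hunc j
  obtain ⟨N, hN⟩ := exists_fibre hJ fun f => (F f).card
  set S := {t ∈ {t ∈ D | j t = J} | (F t).card = N} with hS
  obtain ⟨R, hR, hRμ⟩ := exists_root hN F N fun t ht => ht.2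
  set ε : ℝ := 1 / ((J : ℝ) + 1) with hε
  have hεpos : 0 < ε := by positivity
  -- the enumerations
  set S' := {t ∈ S | R ⊆ F t} with hS'
  let n : ℕ := N - R.card
  have hcard : ∀ f ∈ S', (F f \ R).card = n := by
    intro f hf
    rw [Finset.card_sdiff_of_subset hf.2, hf.1.2]
  have hX : Nonempty X := by
    obtain ⟨e, -⟩ := Pool.Agent.Helper292.ForceCH.exists_emb
    exact ⟨(e 0, 0)⟩
  have h1 : ∀ f, ∃ g : Fin n → X, f ∈ S' →
      Function.Injective g ∧ ∀ x, x ∈ F f \ R ↔ ∃ i, g i = x := by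
    intro f
    by_cases hf : f ∈ S'
    · let E := (F f \ R).equivFinOfCardEq (hcard f hf)
      refine ⟨fun i => (E.symm i : X), fun _ => ⟨?_, fun x => ⟨fun hx => ⟨E ⟨x, hx⟩, by simp⟩, ?_⟩⟩⟩
      · exact Subtype.val_injective.comp E.symm.injective
      · rintro ⟨i, rfl⟩
        exact (E.symm i).2
    · exact ⟨fun _ => hX.some, fun h => absurd h hf⟩
  choose g hg using h1
  -- the vectors of the values
  let v : {f : X → ℝ | Continuous f} → (R → ℝ) × (Fin n → ℝ) := fun f =>
    (fun x => (f : X → ℝ) x, fun i => (f : X → ℝ) (g f i))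
  have h2 : ∀ f, ∃ k : ℕ, dist (v f) (TopologicalSpace.denseSeq ((R → ℝ) × (Fin n → ℝ)) k) < ε / 4 :=
    fun f => (TopologicalSpace.denseRange_denseSeq _).exists_dist_lt (v f) (by positivity)
  choose k hk using h2
  obtain ⟨K, hK⟩ := exists_fibre (S := S') hR k
  set T := {t ∈ S' | k t = K} with hT
  have hvv : ∀ f ∈ T, ∀ f' ∈ T, dist (v f) (v f') < ε / 2 := by
    intro f hf f' hf'
    have h3 := hk f
    have h4 := hk f'
    rw [hf.2] at h3
    rw [hf'.2] at h4
    calc dist (v f) (v f') ≤ _ := dist_triangle_right _ _ _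
      _ < ε / 4 + ε / 4 := add_lt_add h3 h4
      _ = ε / 2 := by ring
  have hvR : ∀ f ∈ T, ∀ f' ∈ T, ∀ x ∈ R, |(f : X → ℝ) x - (f' : X → ℝ) x| < ε / 2 := by
    intro f hf f' hf' x hx
    have h3 : dist ((v f).1 ⟨x, hx⟩) ((v f').1 ⟨x, hx⟩) ≤ dist (v f) (v f') :=
      (dist_le_pi_dist _ _ _).trans (le_max_left _ _)
    have h4 := h3.trans_lt (hvv f hf f' hf')
    rw [Real.dist_eq] at h4
    exact h4
  have hvg : ∀ f ∈ T, ∀ f' ∈ T, ∀ i, |(f : X → ℝ) (g f i) - (f' : X → ℝ) (g f' i)| < ε / 2 := by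
    intro f hf f' hf' i
    have h3 : dist ((v f).2 i) ((v f').2 i) ≤ dist (v f) (v f') :=
      (dist_le_pi_dist _ _ _).trans (le_max_right _ _)
    have h4 := h3.trans_lt (hvv f hf f' hf')
    rw [Real.dist_eq] at h4
    exact h4
  have hTD : ∀ f ∈ T, f ∈ D := fun f hf => hf.1.1.1.1
  have hTj : ∀ f ∈ T, j f = J := fun f hf => hf.1.1.1.2
  -- two different close members
  have key : ∃ f ∈ T, ∃ f' ∈ T, f ≠ f' ∧ ∀ i, |(f : X → ℝ) (g f' i) - (f' : X → ℝ) (g f' i)| < ε := by
    rcases Nat.eq_zero_or_pos n with hn | hn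
    · have h3 : ¬ T.Subsingleton := fun h => hK h.countable
      rw [Set.not_subsingleton_iff] at h3
      obtain ⟨f, hf, f', hf', hne⟩ := h3
      refine ⟨f, hf, f', hf', hne, fun i => ?_⟩
      have hi := i.2
      omega
    · have hunb : ∀ μ : Om, ∃ f ∈ T, ∀ i, μ < (g f i).1 := by
        intro μ
        by_contra hcon
        push Not at hcon
        refine hK ((hRμ μ).mono fun f hf => ?_)
        obtain ⟨i, hi⟩ := hcon f hf
        have h3 := ((hg f hf.1).2 (g f i)).2 ⟨i, rfl⟩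
        rw [Finset.mem_sdiff] at h3
        exact ⟨hf.1.1, hf.1.2, g f i, h3.1, h3.2, hi⟩
      obtain ⟨α, hα⟩ := hV.star he hG (g '' T) (by
        rintro _ ⟨f, hf, rfl⟩
        exact (hg f hf.1).1) (fun μ => by
          obtain ⟨f, hf, hμ⟩ := hunb μ
          exact ⟨g f, mem_image_of_mem _ hf, hμ⟩)
      obtain ⟨f, hf, hfα⟩ := hunb α
      have h3 : ∀ i, ∃ m, ∀ y ∈ U V (g f i) m, |(f : X → ℝ) y - (f : X → ℝ) (g f i)| < ε / 2 := by
        intro i
        have h4 : IsOpen ((f : X → ℝ) ⁻¹' Metric.ball ((f : X → ℝ) (g f i)) (ε / 2)) :=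
          Metric.isOpen_ball.preimage f.2
        obtain ⟨m, hm⟩ := hV.exists_U h4 (x := g f i)
          (by rw [mem_preimage]; exact Metric.mem_ball_self (by positivity))
        refine ⟨m, fun y hy => ?_⟩
        have h5 := hm hy
        rw [mem_preimage, Metric.mem_ball, Real.dist_eq] at h5
        exact h5
      choose m hm using h3
      obtain ⟨_, ⟨f', hf', rfl⟩, hlow, hmem⟩ := hα (g f) (hg f hf.1).1 (fun i => (hfα i).le) m
      refine ⟨f, hf, f', hf', ?_, fun i => ?_⟩
      · rintro rfl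
        exact absurd (hlow ⟨0, hn⟩) (not_lt.2 (hfα ⟨0, hn⟩).le)
      · have h4 := hm i _ (hmem i)
        have h5 := hvg f hf f' hf' i
        calc |(f : X → ℝ) (g f' i) - (f' : X → ℝ) (g f' i)|
            = |((f : X → ℝ) (g f' i) - (f : X → ℝ) (g f i)) +
              ((f : X → ℝ) (g f i) - (f' : X → ℝ) (g f' i))| := by ring_nf
          _ ≤ _ := abs_add_le _ _
          _ < ε / 2 + ε / 2 := add_lt_add h4 h5
          _ = ε := by ring
  obtain ⟨f, hf, f', hf', hne, hclose⟩ := key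
  refine hne (hFj f' (hTD f' hf') f (hTD f hf) fun x hx => ?_)
  rw [hTj f' hf']
  by_cases hxR : x ∈ R
  · exact (hvR f hf f' hf' x hxR).trans (by linarith)
  · obtain ⟨i, rfl⟩ := ((hg f' hf'.1).2 x).1 (Finset.mem_sdiff.2 ⟨hx, hxR⟩)
    exact hclose i

/-- the closure of a discrete set is Fréchet–Urysohn -/
theorem IsTab.closure_discrete (hV : IsTab e G V) (he : Function.Surjective e) (hG : Guess G)
    (D : Set {f : X → ℝ | Continuous f}) (hD : DiscreteTopology D) :
    FrechetUrysohnSpace (closure D) := by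
  classical
  have hc := hV.countable_discrete he hG D hD
  -- a common tail
  obtain ⟨α, hα⟩ : ∃ α : Om, ∀ f ∈ D, ∀ x y : X, α ≤ x.1 → α ≤ y.1 →
      (f : X → ℝ) x = (f : X → ℝ) y := by
    have h1 := fun f : {f : X → ℝ | Continuous f} => hV.const_tail he hG f.2
    choose a ha using h1
    rcases D.eq_empty_or_nonempty with h0 | h0
    · obtain ⟨e, -⟩ := Pool.Agent.Helper292.ForceCH.exists_emb
      exact ⟨e 0, fun f hf => by rw [h0] at hf; exact absurd hf (notMem_empty f)⟩
    · obtain ⟨u, hu⟩ := hc.exists_eq_range h0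
      obtain ⟨α, hα⟩ := exists_bound fun k => a (u k)
      refine ⟨α, fun f hf x y hx hy => ?_⟩
      rw [hu] at hf
      obtain ⟨k, rfl⟩ := hf
      exact ha (u k) x y ((hα k).le.trans hx) ((hα k).le.trans hy)
  have hcl : ∀ f ∈ closure D, ∀ x : X, α ≤ x.1 → (f : X → ℝ) x = (f : X → ℝ) (α, 0) := by
    intro f hf x hx
    have h1 : IsClosed {f : {f : X → ℝ | Continuous f} | (f : X → ℝ) x = (f : X → ℝ) (α, 0)} :=
      isClosed_eq ((continuous_apply x).comp continuous_subtype_val)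
        ((continuous_apply ((α, 0) : X)).comp continuous_subtype_val)
    exact closure_minimal (fun g hg => hα g hg x (α, 0) hx le_rfl) h1 hf
  -- the evaluations at the points of level at most `α`
  let I : Type := {x : X // x.1 ≤ α}
  have hI : Countable I := by
    obtain ⟨β, hβ⟩ := exists_gt α
    have h1 : {x : X | x.1 ≤ α} ⊆ Below β := fun x hx => lt_of_le_of_lt hx hβ
    exact ((countable_Below β).mono h1).to_subtype
  let φ : closure D → (I → ℝ) := fun f x => ((f : {f : X → ℝ | Continuous f}) : X → ℝ) x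
  let ψ : (I → ℝ) → (X → ℝ) := fun h x => if hx : x.1 ≤ α then h ⟨x, hx⟩ else h ⟨(α, 0), le_rfl⟩
  have hφ : Continuous φ := by
    refine continuous_pi fun x => ?_
    exact (continuous_apply (x : X)).comp (continuous_subtype_val.comp continuous_subtype_val)
  have hψ : Continuous ψ := by
    refine continuous_pi fun x => ?_
    by_cases hx : x.1 ≤ α
    · simp only [ψ, dif_pos hx]
      exact continuous_apply _
    · simp only [ψ, dif_neg hx]
      exact continuous_apply _
  have hcomp : ψ ∘ φ = fun f : closure D => ((f : {f : X → ℝ | Continuous f}) : X → ℝ) := by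
    funext f x
    by_cases hx : x.1 ≤ α
    · simp only [Function.comp_apply, ψ, φ, dif_pos hx]
    · simp only [Function.comp_apply, ψ, φ, dif_neg hx]
      exact (hcl f f.2 x (not_le.1 hx).le).symm
  have hind : IsInducing φ := by
    refine IsInducing.of_comp hφ hψ ?_
    rw [hcomp]
    exact IsInducing.subtypeVal.comp IsInducing.subtypeVal
  have := hind.firstCountableTopology
  infer_instance

/-- the space of all the continuous functions is not Fréchet–Urysohn -/
theorem IsTab.not_frechetUrysohn (hV : IsTab e G V) :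
    ¬ FrechetUrysohnSpace {f : X → ℝ | Continuous f} := by
  classical
  intro hFU
  let A : Set {f : X → ℝ | Continuous f} := {f | ∃ α : Om, ∀ x : X, α ≤ x.1 → (f : X → ℝ) x = 0}
  let one : {f : X → ℝ | Continuous f} := ⟨fun _ => 1, continuous_const⟩
  have h1 : one ∈ closure A := by
    rw [mem_closure_iff]
    intro O hO hone
    rw [isOpen_induced_iff] at hO
    obtain ⟨O', hO', rfl⟩ := hO
    rw [isOpen_pi_iff] at hO'
    obtain ⟨F, u, hu, huO⟩ := hO' _ hone
    have hclopen : IsClopen (⋃ x ∈ F, U V x 0) :=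
      ⟨F.finite_toSet.isClosed_biUnion fun x _ => hV.isClosed_U x 0,
        isOpen_biUnion fun x _ => hV.isOpen_U x 0⟩
    let f : X → ℝ := (⋃ x ∈ F, U V x 0).indicator 1
    have hf : Continuous f := hclopen.continuous_indicator continuous_const
    refine ⟨⟨f, hf⟩, huO fun x hx => ?_, ?_⟩
    · have h2 : f x = 1 := by
        have h3 : x ∈ ⋃ x ∈ F, U V x 0 := mem_iUnion₂.2 ⟨x, hx, mem_U x 0⟩
        simp only [f, indicator_of_mem h3, Pi.one_apply]
      change f x ∈ u x
      rw [h2]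
      exact (hu x hx).2
    · obtain ⟨α, hα⟩ : ∃ α : Om, ∀ x ∈ F, x.1 < α := by
        obtain ⟨e, -⟩ := Pool.Agent.Helper292.ForceCH.exists_emb
        have hne : (insert (e 0) (F.image Prod.fst)).Nonempty := Finset.insert_nonempty _ _
        obtain ⟨α, hα⟩ := exists_gt ((insert (e 0) (F.image Prod.fst)).max' hne)
        exact ⟨α, fun x hx => lt_of_le_of_lt (Finset.le_max' _ _
          (Finset.mem_insert_of_mem (Finset.mem_image_of_mem _ hx))) hα⟩
      refine ⟨α, fun x hx => ?_⟩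
      change f x = 0
      refine indicator_of_notMem (fun h => ?_) _
      obtain ⟨y, hy, hxy⟩ := mem_iUnion₂.1 h
      rcases hV.lev hxy with h3 | h3
      · rw [h3] at hx
        exact absurd (hα y hy) (not_lt.2 hx)
      · exact absurd (h3.trans (hα y hy)) (not_lt.2 hx)
  rw [mem_closure_iff_seq_limit] at h1
  obtain ⟨f, hfA, hf⟩ := h1
  choose a ha using hfA
  obtain ⟨α, hα⟩ := exists_bound a
  have h2 : Tendsto (fun n => (f n : X → ℝ) (α, 0)) atTop (𝓝 1) := by
    have h3 : Continuous fun g : {f : X → ℝ | Continuous f} => (g : X → ℝ) (α, 0) :=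
      (continuous_apply ((α, 0) : X)).comp continuous_subtype_val
    exact (h3.tendsto one).comp hf
  have h3 : (fun n => (f n : X → ℝ) (α, 0)) = fun _ => 0 := by
    funext n
    exact ha n (α, 0) (hα n).le
  rw [h3] at h2
  exact zero_ne_one (tendsto_nhds_unique tendsto_const_nhds h2)

end space

lemma exists_code : ∃ e : Om → Σ n : ℕ, (Fin n → X), Function.Surjective e := by
  have hOm : Cardinal.mk Om = Cardinal.aleph 1 := by simp
  have hX : Cardinal.mk X = Cardinal.aleph 1 := by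
    rw [Cardinal.mk_prod, Cardinal.lift_id, Cardinal.lift_id, hOm, Cardinal.mk_nat]
    exact Cardinal.mul_eq_left (Cardinal.aleph0_le_aleph 1) (Cardinal.aleph0_le_aleph 1)
      Cardinal.aleph0_ne_zero
  have hinf : Infinite X := by
    rw [Cardinal.infinite_iff, hX]
    exact Cardinal.aleph0_le_aleph 1
  have h1 : Cardinal.mk (Σ n : ℕ, (Fin n → X)) = Cardinal.mk Om := by
    rw [← Cardinal.mk_congr (List.equivSigmaTuple (α := X)), Cardinal.mk_list_eq_mk, hX, hOm]
  obtain ⟨E⟩ := Cardinal.eq.1 h1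
  exact ⟨E.symm, E.symm.surjective⟩

/-- **Main theorem.**  (A) is a theorem on forcing: some notion of forcing `P` of type `Type` forces,
below every condition, that `ω₁` is preserved and that diamond holds.  (B) is proved from the usual
axioms and the explicit hypothesis diamond: there is a Tychonoff space `X` such that the closure of
each discrete subset of `C_p(X)` is Fréchet–Urysohn (it is first countable) while `C_p(X)` is not
Fréchet–Urysohn. -/
theorem result :
    (∃ (P : Type) (_ : Preorder P), Nonempty P ∧ ∀ p : P,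
      p ∈ Pool.Agent.Helper292.ForceCH.OmegaOnePreserved P ∧
      p ∈ Pool.Agent.Helper292.ForceCH.DiamondHolds P) ∧
    (Diamond → ∃ (X : Type) (_ : TopologicalSpace X), T35Space X ∧
      (∀ D : Set {f : X → ℝ | Continuous f},
        DiscreteTopology D → FrechetUrysohnSpace (closure D)) ∧
      ¬ FrechetUrysohnSpace {f : X → ℝ | Continuous f}) := by
  refine ⟨?_, fun hd => ?_⟩
  · obtain ⟨P, hP, hne, h⟩ := Pool.Agent.Helper292.ForceCH.exists_forcing
    exact ⟨P, hP, hne, fun p => ⟨(h p).1, (h p).2.1⟩⟩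
  · obtain ⟨G, hG⟩ := hd
    obtain ⟨e, he⟩ := exists_code
    let _ : TopologicalSpace X := topOf (tab e G)
    have hV : IsTab e G (tab e G) := ⟨tab_ext e G, fun O => Iff.rfl⟩
    exact ⟨X, inferInstance, hV.t35, hV.closure_discrete he hG, hV.not_frechetUrysohn⟩

end Pool.Agent.Results.MP_23bd8d_gt.UnderDiamond
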